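import Mathlib
import Pool.Agent.H54.TS.Defs

/-! Project TS, module N1: a linear triple system without a countable proper colouring
(Erdős and Rothschild: colour the pairs of a large set; by Cantor's theorem). -/

set_option autoImplicit false

universe u v w

namespace Pool.Agent.H54.TS

namespace N1

/-- Names of points. -/
inductive Tm : Type
  | base : Tm
  | node (s : ℕ → Tm) (d : ℕ → Bool) : Tm

open Classical in
/-- The point with a given name. -/
noncomputable def ev {X : Type u} [Inhabited X] (f : Sym2 X → ℕ) : Tm → X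
  | .base => default
  | .node s d =>
      if h : ∃ x : X, ∀ n, d n = true → x ≠ ev f (s n) ∧ f s(ev f (s n), x) = n
      then h.choose else default

lemma ev_spec {X : Type u} [Inhabited X] (f : Sym2 X → ℕ) (s : ℕ → Tm) (d : ℕ → Bool)
    (h : ∃ x : X, ∀ n, d n = true → x ≠ ev f (s n) ∧ f s(ev f (s n), x) = n) :
    ∀ n, d n = true → ev f (.node s d) ≠ ev f (s n) ∧ f s(ev f (s n), ev f (.node s d)) = n := by
  have : ev f (.node s d) = h.choose := by
    rw [ev, dif_pos h]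
  rw [this]
  exact h.choose_spec

/-- If all names do not exhaust `X`, a colouring of the pairs has a monochromatic triangle. -/
lemma exists_mono {X : Type u} [Inhabited X] (f : Sym2 X → ℕ) (x₀ : X)
    (hx : ∀ t, ev f t ≠ x₀) :
    ∃ a b c : X, a ≠ b ∧ b ≠ c ∧ a ≠ c ∧ f s(a, b) = f s(b, c) ∧ f s(a, b) = f s(a, c) := by
  classical
  obtain ⟨A, hA⟩ := zorn_subset {A : Set X | A ⊆ Set.range (ev f) ∧
    Set.InjOn (fun y => f s(y, x₀)) A} (by
      intro c hc hch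
      refine ⟨⋃₀ c, ⟨Set.sUnion_subset fun s hs => (hc hs).1, ?_⟩,
        fun s hs => Set.subset_sUnion_of_mem hs⟩
      rintro a ⟨s, hs, has⟩ b ⟨t, ht, hbt⟩ hab
      rcases hch.total hs ht with h | h
      · exact (hc ht).2 (h has) hbt hab
      · exact (hc hs).2 has (h hbt) hab)
  obtain ⟨hA1, hA2⟩ := hA.prop
  have hch : ∀ n : ℕ, ∃ t : Tm, (∃ a ∈ A, f s(a, x₀) = n) → ev f t ∈ A ∧ f s(ev f t, x₀) = n := by
    intro n
    by_cases h : ∃ a ∈ A, f s(a, x₀) = n
    · obtain ⟨a, ha, han⟩ := h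
      obtain ⟨t, rfl⟩ := hA1 ha
      exact ⟨t, fun _ => ⟨ha, han⟩⟩
    · exact ⟨.base, fun h' => absurd h' h⟩
  choose s hs using hch
  set d : ℕ → Bool := fun n => decide (∃ a ∈ A, f s(a, x₀) = n) with hd
  have hd' : ∀ n, d n = true ↔ ∃ a ∈ A, f s(a, x₀) = n := by
    intro n
    simp [hd]
  have hspec := ev_spec f s d ⟨x₀, fun n hn => ⟨fun h => hx _ h.symm, (hs n ((hd' n).1 hn)).2⟩⟩
  set y := ev f (.node s d) with hy
  have hyA : y ∉ A := by
    intro h
    have h1 : d (f s(y, x₀)) = true := (hd' _).2 ⟨y, h, rfl⟩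
    have h2 := hs _ ((hd' _).1 h1)
    exact (hspec _ h1).1 (hA2 h h2.1 h2.2.symm)
  have hnot : ¬ (insert y A ∈ {A : Set X | A ⊆ Set.range (ev f) ∧
      Set.InjOn (fun y => f s(y, x₀)) A}) := by
    intro h
    exact hyA (hA.le_of_ge h (Set.subset_insert y A) (Set.mem_insert y A))
  have h3 : ∃ a ∈ A, f s(a, x₀) = f s(y, x₀) := by
    by_contra hcon
    push Not at hcon
    refine hnot ⟨Set.insert_subset ⟨_, rfl⟩ hA1, ?_⟩
    rw [Set.injOn_insert hyA]
    refine ⟨hA2, ?_⟩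
    rintro ⟨a, ha, hay⟩
    exact hcon a ha hay
  have h4 : d (f s(y, x₀)) = true := (hd' _).2 h3
  have h5 := hs _ h3
  have h6 := hspec _ h4
  refine ⟨ev f (s (f s(y, x₀))), y, x₀, h6.1.symm, hx _, hx _, h6.2, ?_⟩
  rw [h6.2, h5.2]

open Classical in
/-- the triples -/
def tri (X : Type u) : Set (Finset (Sym2 X)) :=
  {t | ∃ a b c : X, a ≠ b ∧ b ≠ c ∧ a ≠ c ∧ t = {s(a, b), s(b, c), s(a, c)}}

lemma tri_card (X : Type u) : ∀ t ∈ tri X, t.card = 3 := by
  classical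
  rintro t ⟨a, b, c, hab, hbc, hac, rfl⟩
  rw [Finset.card_eq_three]
  refine ⟨s(a, b), s(b, c), s(a, c), ?_, ?_, ?_, ?_⟩
  · intro h
    rw [Sym2.eq_iff] at h
    rcases h with ⟨h, -⟩ | ⟨h, -⟩
    · exact hab h
    · exact hac h
  · intro h
    rw [Sym2.eq_iff] at h
    rcases h with ⟨-, h⟩ | ⟨h, -⟩
    · exact hbc h
    · exact hac h
  · intro h
    rw [Sym2.eq_iff] at h
    rcases h with ⟨h, -⟩ | ⟨h, -⟩
    · exact hab h.symm
    · exact hbc h
  · ext; simp

lemma mem_tri {X : Type u} {a b c : X} (hab : a ≠ b) (hbc : b ≠ c) (hac : a ≠ c) (e : Sym2 X) :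
    (e = s(a, b) ∨ e = s(b, c) ∨ e = s(a, c)) ↔
      (¬ e.IsDiag ∧ ∀ z ∈ e, z = a ∨ z = b ∨ z = c) := by
  induction e with | _ p q =>
  simp only [Sym2.eq_iff, Sym2.mk_isDiag_iff, Sym2.mem_iff]
  constructor
  · rintro ((⟨rfl, rfl⟩ | ⟨rfl, rfl⟩) | (⟨rfl, rfl⟩ | ⟨rfl, rfl⟩) | (⟨rfl, rfl⟩ | ⟨rfl, rfl⟩))
    all_goals
      refine ⟨by first | assumption | exact Ne.symm ‹_›, ?_⟩
      rintro z (rfl | rfl) <;> simp
  · rintro ⟨h1, h2⟩
    have h3 := h2 p (Or.inl rfl)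
    have h4 := h2 q (Or.inr rfl)
    rcases h3 with rfl | rfl | rfl <;> rcases h4 with rfl | rfl | rfl <;> simp_all

lemma union_tri {X : Type u} {a b c : X} (e e' : Sym2 X)
    (he : e = s(a, b) ∨ e = s(b, c) ∨ e = s(a, c))
    (he' : e' = s(a, b) ∨ e' = s(b, c) ∨ e' = s(a, c)) (hne : e ≠ e') (z : X) :
    (z ∈ e ∨ z ∈ e') ↔ (z = a ∨ z = b ∨ z = c) := by
  rcases he with rfl | rfl | rfl <;> rcases he' with rfl | rfl | rfl <;>
    first
      | exact absurd rfl hne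
      | (simp only [Sym2.mem_iff]; tauto)

lemma tri_linear (X : Type u) : Linear (tri X) := by
  classical
  rintro t ⟨a, b, c, hab, hbc, hac, rfl⟩ t' ⟨a', b', c', hab', hbc', hac', rfl⟩ x y hxy h1 h2 h3 h4
  simp only [Finset.mem_insert, Finset.mem_singleton] at h1 h2 h3 h4
  have h5 := union_tri x y h1 h2 hxy
  have h6 := union_tri x y h3 h4 hxy
  ext e
  simp only [Finset.mem_insert, Finset.mem_singleton]
  rw [mem_tri hab hbc hac, mem_tri hab' hbc' hac']
  simp only [← h5, ← h6]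

end N1

open N1 in
/-- N1 -/
theorem exists_linear : ∃ (V : Type u) (K : TripleSystem V), K.Unc ∧ Linear K.triples := by
  classical
  refine ⟨Sym2 (Set (ULift.{u} Tm)), ⟨tri _, tri_card _⟩, ?_, tri_linear _⟩
  rintro ⟨f, hf⟩
  have h1 := Function.cantor_surjective (fun t : ULift.{u} Tm => ev f t.down)
  rw [Function.Surjective] at h1
  push Not at h1
  obtain ⟨x₀, hx₀⟩ := h1
  obtain ⟨a, b, c, hab, hbc, hac, e1, e2⟩ := exists_mono f x₀ (fun t => hx₀ ⟨t⟩)
  refine hf {s(a, b), s(b, c), s(a, c)} ⟨a, b, c, hab, hbc, hac, rfl⟩ ⟨f s(a, b), ?_⟩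
  intro x hx
  simp only [Finset.mem_insert, Finset.mem_singleton] at hx
  rcases hx with rfl | rfl | rfl
  · rfl
  · exact e1.symm
  · exact e2.symm

end Pool.Agent.H54.TS
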