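import Mathlib
import Pool.Agent.H54.TS.Defs
import Pool.Agent.H53.TS.P0

/-! Project TS, module P2: gluing along a vertex. -/

set_option autoImplicit false

universe u v w

namespace Pool.Agent.H54.TS

namespace P2

/-- Statement of the lemma of Erdős and Hajnal (module P0). -/
def EH : Prop := ∀ {V : Type u} (H : Set (Set V)) (g : Finset V → Set V)
    (_ : ∀ A, (g A).Countable) (_ : ∀ h ∈ H, ∃ x ∈ h, ∃ y ∈ h, x ≠ y)
    (_ : ∀ S M : Set V, M ⊆ S → (∀ A : Finset V, (A : Set V) ⊆ M → g A ∩ S ⊆ M) →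
      ∀ v ∈ S, v ∉ M → {u | u ∈ M ∧ ∃ h ∈ H, h ⊆ S ∧ u ∈ h ∧ v ∈ h}.Finite),
    ∃ c : V → ℕ, ∀ h ∈ H, ¬ ∃ a, ∀ x ∈ h, c x = a

/-- the triples inside `P` -/
def res {V : Type u} (K : TripleSystem V) (P : Set V) : TripleSystem V where
  triples := {t | t ∈ K.triples ∧ ∀ x ∈ t, x ∈ P}
  card_eq := fun t ht => K.card_eq t ht.1

lemma unc_of_fibers {V : Type u} (K : TripleSystem V) (d : V → ℕ)
    (h : ∀ i, ¬ (res K {v | d v = i}).Unc) : ¬ K.Unc := by
  intro hK
  have h2 : ∀ i, ∃ c : V → ℕ, (res K {v | d v = i}).Proper c := by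
    intro i
    have := h i
    rw [TripleSystem.Unc, not_not] at this
    exact this
  choose c hc using h2
  refine hK ⟨fun v => Nat.pair (d v) (c (d v) v), ?_⟩
  rintro t ht ⟨a, ha⟩
  have h3 : ∀ x ∈ t, d x = (Nat.unpair a).1 ∧ c (d x) x = (Nat.unpair a).2 := by
    intro x hx
    rw [← ha x hx, Nat.unpair_pair]
    exact ⟨rfl, rfl⟩
  refine hc (Nat.unpair a).1 t ⟨ht, fun x hx => (h3 x hx).1⟩ ⟨(Nat.unpair a).2, ?_⟩
  intro x hx
  have h4 := h3 x hx
  rw [h4.1] at h4
  exact h4.2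

lemma res_res {V : Type u} (K : TripleSystem V) (P Q : Set V) :
    res (res K P) Q = res K (P ∩ Q) := by
  have : (res (res K P) Q).triples = (res K (P ∩ Q)).triples := by
    ext t
    constructor
    · rintro ⟨⟨h1, h2⟩, h3⟩
      exact ⟨h1, fun x hx => ⟨h2 x hx, h3 x hx⟩⟩
    · rintro ⟨h1, h2⟩
      exact ⟨⟨h1, fun x hx => (h2 x hx).1⟩, fun x hx => (h2 x hx).2⟩
  cases h1 : res (res K P) Q
  cases h2 : res K (P ∩ Q)
  rw [h1, h2] at this
  simp only at this
  subst this
  rfl

lemma unc_compl {V : Type u} (K : TripleSystem V) (hK : K.Unc) (P : Set V)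
    (hP : ¬ (res K P).Unc) : (res K Pᶜ).Unc := by
  classical
  by_contra hcon
  refine unc_of_fibers K (fun v => if v ∈ P then 0 else 1) ?_ hK
  intro i h
  by_cases hi : i = 0
  · subst hi
    refine hP ?_
    convert h using 3
    ext v
    by_cases hv : v ∈ P <;> simp [hv]
  · by_cases hi1 : i = 1
    · subst hi1
      refine hcon ?_
      convert h using 3
      ext v
      by_cases hv : v ∈ P <;> simp [hv]
    · refine h ⟨fun _ => 0, ?_⟩
      rintro t ⟨ht, h2⟩ -
      have h3 := K.card_eq t ht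
      obtain ⟨x, hx⟩ : t.Nonempty := by
        rw [← Finset.card_pos, h3]; norm_num
      have h4 := h2 x hx
      change (if x ∈ P then 0 else 1) = i at h4
      by_cases hv : x ∈ P
      · rw [if_pos hv] at h4; exact hi h4.symm
      · rw [if_neg hv] at h4; exact hi1 h4.symm

lemma unc_finite {V : Type u} (K : TripleSystem V) (hK : K.Unc) (E : Set V) (hE : E.Finite) :
    (res K Eᶜ).Unc := by
  classical
  apply unc_compl K hK
  intro h
  have := hE.to_subtype
  obtain ⟨n, ⟨e⟩⟩ := Finite.exists_equiv_fin E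
  refine h ⟨fun x => if hx : x ∈ E then (e ⟨x, hx⟩ : ℕ) else 0, ?_⟩
  rintro t ⟨ht, h2⟩ ⟨a, ha⟩
  have h3 := K.card_eq t ht
  obtain ⟨x, y, z, hxy, -, -, rfl⟩ := Finset.card_eq_three.mp h3
  have hx := h2 x (by simp)
  have hy := h2 y (by simp)
  have h1 := ha x (by simp)
  have h2 := ha y (by simp)
  simp only [hx, hy, dif_pos] at h1 h2
  have h5 := e.injective (Fin.ext (h1.trans h2.symm))
  exact hxy (congrArg Subtype.val h5)

lemma infinite_of_unc' {V : Type u} (K : TripleSystem V) (hK : K.Unc) : Infinite V := by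
  classical
  by_contra h
  rw [not_infinite_iff_finite] at h
  have h1 := unc_finite K hK Set.univ Set.finite_univ
  refine h1 ⟨fun _ => 0, ?_⟩
  rintro t ⟨ht, h2⟩ -
  have h3 := K.card_eq t ht
  obtain ⟨x, hx⟩ : t.Nonempty := by
    rw [← Finset.card_pos, h3]; norm_num
  exact h2 x hx (Set.mem_univ x)

/-- a map which is injective on a set extends to an embedding -/
lemma extend {W : Type v} [Finite W] {V : Type u} [Infinite V] (S : Set W) (ψ : W → V)
    (hψ : Set.InjOn ψ S) : ∃ φ : W ↪ V, ∀ x ∈ S, φ x = ψ x := by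
  classical
  have hfin : (ψ '' S).Finite := (Set.toFinite S).image ψ
  have hinf : Infinite ((ψ '' S)ᶜ : Set V) := hfin.infinite_compl.to_subtype
  obtain ⟨n, ⟨e⟩⟩ := Finite.exists_equiv_fin W
  obtain ⟨f⟩ : Nonempty (ℕ ↪ ((ψ '' S)ᶜ : Set V)) := ⟨Infinite.natEmbedding _⟩
  refine ⟨⟨fun x => if x ∈ S then ψ x else (f (e x : ℕ) : V), ?_⟩, ?_⟩
  · intro x y hxy
    by_cases hx : x ∈ S <;> by_cases hy : y ∈ S
    · simp only [hx, hy, if_true] at hxy
      exact hψ hx hy hxy
    · simp only [hx, hy, if_true, if_false] at hxy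
      exact absurd ⟨x, hx, hxy⟩ (f (e y : ℕ)).2
    · simp only [hx, hy, if_true, if_false] at hxy
      exact absurd ⟨y, hy, hxy.symm⟩ (f (e x : ℕ)).2
    · simp only [hx, hy, if_false] at hxy
      exact e.injective (Fin.ext (f.injective (Subtype.ext hxy)))
  · intro x hx
    exact if_pos hx

open Classical in
lemma appears_of {W : Type v} [Finite W] {V : Type u} [Infinite V] (F : TripleSystem W)
    (K : TripleSystem V) (ψ : W → V) (hψ : Set.InjOn ψ (support F.triples))
    (h : ∀ t ∈ F.triples, t.image ψ ∈ K.triples) : F.Appears K := by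
  obtain ⟨φ, hφ⟩ := extend _ ψ hψ
  refine ⟨φ, fun t ht => ?_⟩
  have : t.map φ = t.image ψ := by
    rw [Finset.map_eq_image]
    refine Finset.image_congr fun x hx => hφ x ⟨t, ht, hx⟩
  rw [this]
  exact h t ht

open Classical in
/-- combining two maps -/
lemma glue_aux {W : Type v} [Finite W] (F F₁ F₂ : TripleSystem W)
    (h : F.triples = F₁.triples ∪ F₂.triples) {V : Type u} [Infinite V] (K : TripleSystem V)
    (φ₁ φ₂ : W → V) (h1 : Set.InjOn φ₁ (support F₁.triples))
    (h2 : Set.InjOn φ₂ (support F₂.triples))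
    (e1 : ∀ t ∈ F₁.triples, t.image φ₁ ∈ K.triples)
    (e2 : ∀ t ∈ F₂.triples, t.image φ₂ ∈ K.triples)
    (hc : ∀ x ∈ support F₁.triples, x ∈ support F₂.triples → φ₁ x = φ₂ x)
    (hd : ∀ x ∈ support F₁.triples, ∀ y ∈ support F₂.triples, y ∉ support F₁.triples →
      φ₁ x ≠ φ₂ y) : F.Appears K := by
  have hsup : support F.triples = support F₁.triples ∪ support F₂.triples := by
    ext x
    simp only [support, h, Set.mem_ofPred_eq, Set.mem_union]
    constructor
    · rintro ⟨t, ht | ht, hx⟩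
      · exact Or.inl ⟨t, ht, hx⟩
      · exact Or.inr ⟨t, ht, hx⟩
    · rintro (⟨t, ht, hx⟩ | ⟨t, ht, hx⟩)
      · exact ⟨t, Or.inl ht, hx⟩
      · exact ⟨t, Or.inr ht, hx⟩
  set ψ : W → V := fun x => if x ∈ support F₁.triples then φ₁ x else φ₂ x with hψ
  have hψ1 : ∀ x ∈ support F₁.triples, ψ x = φ₁ x := fun x hx => by simp [hψ, hx]
  have hψ2 : ∀ x ∈ support F₂.triples, ψ x = φ₂ x := by
    intro x hx
    by_cases hx1 : x ∈ support F₁.triples
    · rw [hψ1 x hx1, hc x hx1 hx]
    · simp [hψ, hx1]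
  refine appears_of F K ψ ?_ ?_
  · rw [hsup]
    intro x hx y hy hxy
    by_cases hx1 : x ∈ support F₁.triples <;> by_cases hy1 : y ∈ support F₁.triples
    · rw [hψ1 x hx1, hψ1 y hy1] at hxy
      exact h1 hx1 hy1 hxy
    · have hy2 := hy.resolve_left hy1
      rw [hψ1 x hx1, hψ2 y hy2] at hxy
      exact absurd hxy (hd x hx1 y hy2 hy1)
    · have hx2 := hx.resolve_left hx1
      rw [hψ1 y hy1, hψ2 x hx2] at hxy
      exact absurd hxy.symm (hd y hy1 x hx2 hx1)
    · have hx2 := hx.resolve_left hx1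
      have hy2 := hy.resolve_left hy1
      rw [hψ2 x hx2, hψ2 y hy2] at hxy
      exact h2 hx2 hy2 hxy
  · intro t ht
    rw [h] at ht
    rcases ht with ht | ht
    · have : t.image ψ = t.image φ₁ :=
        Finset.image_congr fun x hx => hψ1 x ⟨t, ht, hx⟩
      rw [this]
      exact e1 t ht
    · have : t.image ψ = t.image φ₂ :=
        Finset.image_congr fun x hx => hψ2 x ⟨t, ht, hx⟩
      rw [this]
      exact e2 t ht

open Classical in
theorem appears_glue_of (heh : EH.{u}) {W : Type v} [Finite W] (F F₁ F₂ : TripleSystem W)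
    (h : F.triples = F₁.triples ∪ F₂.triples)
    (hs : (support F₁.triples ∩ support F₂.triples).Subsingleton)
    (h₁ : ∀ (V : Type u) (K : TripleSystem V), K.Unc → F₁.Appears K)
    (h₂ : ∀ (V : Type u) (K : TripleSystem V), K.Unc → F₂.Appears K)
    (V : Type u) (K : TripleSystem V) (hK : K.Unc) : F.Appears K := by
  have hinf := infinite_of_unc' K hK
  by_cases hr : ∃ r, r ∈ support F₁.triples ∧ r ∈ support F₂.triples
  · obtain ⟨r, hr1, hr2⟩ := hr
    -- good vertices
    let good : V → Prop := fun v => ∀ E : Set V, E.Finite → v ∉ E → ∃ φ : W → V,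
      Set.InjOn φ (support F₂.triples) ∧ (∀ t ∈ F₂.triples, t.image φ ∈ K.triples) ∧ φ r = v ∧
      ∀ x ∈ support F₂.triples, φ x ∉ E
    have hE : ∀ v, ∃ E : Set V, E.Finite ∧ v ∉ E ∧ (¬ good v → ¬ ∃ φ : W → V,
      Set.InjOn φ (support F₂.triples) ∧ (∀ t ∈ F₂.triples, t.image φ ∈ K.triples) ∧ φ r = v ∧
      ∀ x ∈ support F₂.triples, φ x ∉ E) := by
      intro v
      by_cases hv : good v
      · exact ⟨∅, Set.finite_empty, fun h => h, fun h => absurd hv h⟩
      · have hv' := hv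
        simp only [good, not_forall] at hv'
        obtain ⟨E, hE1, hE2, hE3⟩ := hv'
        exact ⟨E, hE1, hE2, fun _ => hE3⟩
    choose E hE1 hE2 hE3 using hE
    obtain ⟨d, hd⟩ := heh {h : Set V | ∃ v u, u ∈ E v ∧ h = {v, u}}
      (fun A => ⋃ v ∈ A, E v)
      (fun A => Set.Countable.biUnion A.countable_toSet fun v _ => (hE1 v).countable)
      (by
        rintro _ ⟨v, u, hu, rfl⟩
        refine ⟨v, by simp, u, by simp, ?_⟩
        rintro rfl
        exact hE2 _ hu)
      (by
        intro S M hMS hcl v hvS hvM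
        refine (hE1 v).subset ?_
        rintro u ⟨huM, _, ⟨v', u', hu', rfl⟩, hS, hu, hv⟩
        simp only [Set.mem_insert_iff, Set.mem_singleton_iff] at hu hv
        have huv : u ≠ v := by rintro rfl; exact hvM huM
        rcases hu with rfl | rfl <;> rcases hv with rfl | rfl
        · exact absurd rfl huv
        · exfalso
          refine hvM (hcl {u} (by simpa using huM) ⟨?_, hvS⟩)
          simpa using hu'
        · exact hu'
        · exact absurd rfl huv)
    have hd' : ∀ v, ∀ u ∈ E v, d v ≠ d u := by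
      intro v u hu heq
      refine hd {v, u} ⟨v, u, hu, rfl⟩ ⟨d v, ?_⟩
      intro x hx
      simp only [Set.mem_insert_iff, Set.mem_singleton_iff] at hx
      rcases hx with rfl | rfl
      · rfl
      · exact heq.symm
    have hbad : ¬ (res K {v | ¬ good v}).Unc := by
      apply unc_of_fibers _ d
      intro i hi
      rw [res_res] at hi
      obtain ⟨φ, hφ⟩ := h₂ V _ hi
      have hφ2 : ∀ x ∈ support F₂.triples, ¬ good (φ x) ∧ d (φ x) = i := by
        rintro x ⟨t, ht, hx⟩
        exact (hφ t ht).2 (φ x) (Finset.mem_map_of_mem φ hx)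
      have hb := (hφ2 r hr2).1
      refine hE3 (φ r) hb ⟨φ, φ.injective.injOn, ?_, rfl, ?_⟩
      · intro t ht
        have := (hφ t ht).1
        rwa [Finset.map_eq_image] at this
      · intro x hx hxE
        exact hd' _ _ hxE ((hφ2 r hr2).2.trans (hφ2 x hx).2.symm)
    have hgood := unc_compl K hK _ hbad
    obtain ⟨φ₁, hφ₁⟩ := h₁ V _ hgood
    have hg : good (φ₁ r) := by
      obtain ⟨t, ht, hrt⟩ := hr1
      have := (hφ₁ t ht).2 (φ₁ r) (Finset.mem_map_of_mem φ₁ hrt)
      simpa using this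
    obtain ⟨φ₂, g1, g2, g3, g4⟩ := hg (Set.range φ₁ \ {φ₁ r})
      ((Set.finite_range φ₁).subset Set.sdiff_subset) (by simp)
    refine glue_aux F F₁ F₂ h K φ₁ φ₂ φ₁.injective.injOn g1 ?_ g2 ?_ ?_
    · intro t ht
      have := (hφ₁ t ht).1
      rwa [Finset.map_eq_image] at this
    · intro x hx1 hx2
      have : x = r := hs ⟨hx1, hx2⟩ ⟨hr1, hr2⟩
      rw [this, g3]
    · intro x hx y hy hy1 heq
      have h5 := g4 y hy
      have h6 : φ₂ y = φ₁ r := by
        by_contra hne
        exact h5 ⟨⟨x, heq⟩, hne⟩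
      have h7 : y = r := g1 hy hr2 (h6.trans g3.symm)
      exact hy1 (h7 ▸ hr1)
  · push Not at hr
    obtain ⟨φ₁, hφ₁⟩ := h₁ V K hK
    have h3 := unc_finite K hK (Set.range φ₁) (Set.finite_range φ₁)
    obtain ⟨φ₂, hφ₂⟩ := h₂ V _ h3
    refine glue_aux F F₁ F₂ h K φ₁ φ₂ φ₁.injective.injOn φ₂.injective.injOn ?_ ?_ ?_ ?_
    · intro t ht
      have := hφ₁ t ht
      rwa [Finset.map_eq_image] at this
    · intro t ht
      have := (hφ₂ t ht).1
      rwa [Finset.map_eq_image] at this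
    · intro x hx1 hx2
      exact absurd hx2 (hr x hx1)
    · rintro x hx y ⟨t, ht, hyt⟩ hy1 heq
      have := (hφ₂ t ht).2 (φ₂ y) (Finset.mem_map_of_mem φ₂ hyt)
      exact this ⟨x, heq⟩

end P2

/-- P2 -/
theorem appears_glue {W : Type v} [Finite W] (F F₁ F₂ : TripleSystem W)
    (h : F.triples = F₁.triples ∪ F₂.triples)
    (hs : (support F₁.triples ∩ support F₂.triples).Subsingleton)
    (h₁ : ∀ (V : Type u) (K : TripleSystem V), K.Unc → F₁.Appears K)
    (h₂ : ∀ (V : Type u) (K : TripleSystem V), K.Unc → F₂.Appears K)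
    (V : Type u) (K : TripleSystem V) (hK : K.Unc) : F.Appears K :=
  P2.appears_glue_of (fun H g hg hH hcl => eh_lemma H g hg hH hcl) F F₁ F₂ h hs h₁ h₂ V K hK

end Pool.Agent.H54.TS
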